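import Pool.Agent.Lib.MP_44eb6b_gt.Int.Main

/-!
Tkachuk 1995: closed-separability of the countable power of `X` and of the iterated function
space. There is a model of ZFC which contains a counterexample.

The definitions are in `Pool.Agent.Lib.MP_44eb6b_gt.Int.Defs`, `Pool.Agent.Lib.MP_70f607_gt.Defs`
(`IsZFC`) and `Pool.Agent.Lib.MP_694cb9_lc.Defs` (`Fml`, `Sat`, `IsZF`, `PSurj`, `natSet`).
-/

set_option autoImplicit false

open SymExt SymExt.TK

namespace Pool.Agent.Results.MP_44eb6b_gt.NegatedForm

/-- There is a countable transitive model `N` of ZFC and a Tychonoff space `X` in `N` such that,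
in `N`, every closed subspace of the countable power of `X` is separable, while some closed
subspace of the space of continuous real functions on the space of continuous real functions
on `X` (both with the topology of pointwise convergence) is not separable. -/
theorem result : ∃ N : Set ZFSet.{0}, N.Countable ∧ IsZFC N ∧ ∃ X ∈ N,
    T35Space (Pt X) ∧ PowClosedSeparable N X ∧ ¬ CpCpClosedSeparable N X :=
  SymExt.TK.main

end Pool.Agent.Results.MP_44eb6b_gt.NegatedForm
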